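import Pool.Agent.KS6_49.L8.NPC.Num

set_option autoImplicit false

/-!
# From polynomial-time algorithms on padded inputs to fixed-parameter algorithms
-/

namespace Pool.Agent.NPC

open Turing
open Function (update)

/-- Subtypes inherit the coding. -/
instance instTEncSubtype {γ : Type} [TEnc γ] (P : γ → Prop) : TEnc {x : γ // P x} :=
  ⟨fun x => toT x.1, fun _ _ h => Subtype.ext (TEnc.inj h)⟩

theorem Poly.val {γ : Type} [TEnc γ] (P : γ → Prop) : Poly (fun x : {x : γ // P x} => x.1) :=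
  PC.restrict (f := fun x : γ => x) Poly.id P

theorem sz_replicate_unit (n : ℕ) : sz (List.replicate n ()) = 2 * n + 1 := by
  induction n with
  | zero => rfl
  | succ n ih => rw [List.replicate_succ, sz_list_cons, ih, sz_unit]; ring

/-- double the pad -/
def dbl {α : Type} (s : α × List Unit) : α × List Unit := (s.1, s.2 ++ s.2)

theorem Poly.dbl {α : Type} [TEnc α] : Poly (dbl (α := α)) :=
  Poly.pair (Poly.fst Poly.id) (Poly.append (Poly.snd Poly.id) (Poly.snd Poly.id))

theorem dbl_iter {α : Type} (a : α) (k : ℕ) :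
    NPC.dbl^[k] (a, [()]) = (a, List.replicate (2 ^ k) ()) := by
  induction k with
  | zero => rfl
  | succ k ih =>
    rw [Function.iterate_succ_apply', ih, NPC.dbl]
    simp only [List.replicate_append_replicate]
    rw [pow_succ, Nat.mul_two]

theorem fpt_run {α β : Type} [TEnc α] [TEnc β] (g : α → β) (κ : α → ℕ) (m : ℕ → ℕ)
    (hm : UPoly (fun a => m (κ a)))
    (hg : Poly (fun x : {x : α × List Unit // 2 ^ (m (κ x.1)) ≤ x.2.length} => g x.1.1)) :
    ∃ (c : Cmd ℕ) (P : Polynomial ℕ), ∀ a, Runs c (inp (bits a)) (inp (bits (g a)))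
      (P.eval ((bits a).length + 2 ^ (2 * m (κ a) + 4))) := by
  have hn : PC (bits : α → List Bool) T.enc (fun a => toT (List.replicate (m (κ a)) ())) := hm
  have hx : PC (bits : α → List Bool) T.enc (fun a => toT ((a, [()]) : α × List Unit)) :=
    Poly.pair Poly.id (Poly.const [()])
  have hf : PC (bits : α × List Unit → List Bool) bits NPC.dbl := Poly.dbl
  obtain ⟨d, r, hd⟩ := hn.node hx
  obtain ⟨c, p, hf⟩ := hf
  obtain ⟨e, q, he⟩ := hg
  refine ⟨Cmd.seq (Cmd.seq d (Cmd.seq split (Cmd.loop 1 (Cmd.seq (Cmd.pop 1) (ev c))))) e,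
    r + (Polynomial.C 5 * Polynomial.X + Polynomial.C 3) +
      ((p + Polynomial.C 2) * Polynomial.X + Polynomial.C 1) + q, fun a => ?_⟩
  set n : T := toT (List.replicate (m (κ a)) ()) with hndef
  have hnsz : n.size = 2 * m (κ a) + 1 := sz_replicate_unit _
  set X := (bits a).length + 2 ^ (2 * m (κ a) + 4) with hX
  have hszbits : (bits a).length = sz a := bits_length a
  have hB : ∀ k ≤ n.size, (bits (NPC.dbl^[k] (a, [()]))).length ≤ X := by
    intro k hk
    rw [dbl_iter, bits_length, sz_pair, sz_replicate_unit, hX, hszbits]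
    have h1 : 2 ^ k ≤ 2 ^ (2 * m (κ a) + 1) := Nat.pow_le_pow_right (by norm_num) (by omega)
    have h2 : 2 ^ (2 * m (κ a) + 4) = 8 * 2 ^ (2 * m (κ a) + 1) := by
      rw [show 2 * m (κ a) + 4 = (2 * m (κ a) + 1) + 3 by ring, pow_add]; ring
    have h3 : 1 ≤ 2 ^ (2 * m (κ a) + 1) := Nat.one_le_two_pow
    omega
  have h1 := hd a
  rw [inp_eq_st, inp_eq_st] at h1
  rw [inp_eq_st, inp_eq_st]
  have h2 := split_runs n (toT ((a, [()]) : α × List Unit))
  have h3 := loop_runs hf X n.enc.reverse (a, [()]) (by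
    intro k hk
    exact hB k (by simpa [T.size] using hk))
  have hlen : n.enc.reverse.length = 2 * m (κ a) + 1 := by
    rw [List.length_reverse]; exact hnsz
  rw [hlen, dbl_iter] at h3
  have hpad : 2 ^ (m (κ a)) ≤ (List.replicate (2 ^ (2 * m (κ a) + 1)) ()).length := by
    rw [List.length_replicate]
    exact Nat.pow_le_pow_right (by norm_num) (by omega)
  have h4 := he ⟨(a, List.replicate (2 ^ (2 * m (κ a) + 1)) ()), hpad⟩
  rw [inp_eq_st, inp_eq_st] at h4
  have hsz4 : (bits (⟨(a, List.replicate (2 ^ (2 * m (κ a) + 1)) ()), hpad⟩ :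
      {x : α × List Unit // 2 ^ (m (κ x.1)) ≤ x.2.length})).length ≤ X := by
    have := hB (2 * m (κ a) + 1) (by omega)
    rw [dbl_iter] at this
    exact this
  refine ((h1.seq (h2.seq h3)).seq h4).conv rfl rfl ?_
  have e1 : r.eval (bits a).length ≤ r.eval X := eval_mono r (Nat.le_add_right _ _)
  have e2 : 2 * m (κ a) + 1 ≤ X := by
    have : 2 * m (κ a) + 4 < 2 ^ (2 * m (κ a) + 4) := Nat.lt_two_pow_self
    omega
  have e3 := eval_mono q hsz4
  have e4 : (p.eval X + 2) * (2 * m (κ a) + 1) ≤ (p.eval X + 2) * X := Nat.mul_le_mul_left _ e2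
  have e5 : 5 * n.size ≤ 5 * X := by omega
  simp only [Polynomial.eval_add, Polynomial.eval_mul, Polynomial.eval_C, Polynomial.eval_X]
  omega

/-- polynomials grow polynomially -/
theorem eval_le_pow (P : Polynomial ℕ) : ∃ C D : ℕ, ∀ x, 1 ≤ x → P.eval x ≤ C * x ^ D := by
  induction P using Polynomial.induction_on' with
  | add p q hp hq =>
    obtain ⟨C, D, h⟩ := hp
    obtain ⟨C', D', h'⟩ := hq
    refine ⟨C + C', D + D', fun x hx => ?_⟩
    rw [Polynomial.eval_add, Nat.add_mul]
    refine Nat.add_le_add ((h x hx).trans (Nat.mul_le_mul_left _ ?_))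
      ((h' x hx).trans (Nat.mul_le_mul_left _ ?_))
    · exact Nat.pow_le_pow_right hx (by omega)
    · exact Nat.pow_le_pow_right hx (by omega)
  | monomial k c =>
    refine ⟨c, k, fun x _ => ?_⟩
    rw [Polynomial.eval_monomial]

/-- A program running within a time bound gives a Turing machine. -/
theorem runs_to_tm {α β : Type} [TEnc α] [TEnc β] (g : α → β) (c : Cmd ℕ) (Tm : α → ℕ)
    (h : ∀ a, Runs c (inp (bits a)) (inp (bits (g a))) (Tm a)) :
    ∃ (tm : FinTM2) (e₀ : tm.Γ tm.k₀ ≃ Bool) (e₁ : tm.Γ tm.k₁ ≃ Bool), ∀ a,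
      Nonempty (TM2OutputsInTime tm ((bits a).map e₀.invFun)
        (some ((bits (g a)).map e₁.invFun)) (Tm a + 1)) := by
  refine ⟨(c.map (Fin.ofNat (c.bd + 1))).toTM, Equiv.refl Bool, Equiv.refl Bool, fun a => ?_⟩
  obtain ⟨t, ht, hr⟩ := h a
  have h1 := hr.restrict (n := c.bd) (by omega)
  have h2 : Nonempty (TM2OutputsInTime (c.map (Fin.ofNat (c.bd + 1))).toTM (bits a)
      (some (bits (g a))) (t + 1)) := by
    apply toTM_outputs
    convert! h1 using 1
    · funext i
      by_cases hi : i = 0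
      · subst hi; simp [inp]
      · have : (i : ℕ) ≠ 0 := fun h => hi (Fin.ext h)
        simp [inp, hi, this]
    · funext i
      by_cases hi : i = 0
      · subst hi; simp [inp]
      · have : (i : ℕ) ≠ 0 := fun h => hi (Fin.ext h)
        simp [inp, hi, this]
  exact ⟨outputs_conv (List.map_id _).symm (List.map_id _).symm (by omega) h2.some⟩

/-- The main tool: a function computable in polynomial time on inputs padded to an amount
depending on a parameter is computable by a fixed-parameter algorithm. -/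
theorem fpt_tm {α β : Type} [TEnc α] [TEnc β] (g : α → β) (κ : α → ℕ) (m : ℕ → ℕ)
    (hmc : Primrec m) (hm : UPoly (fun a => m (κ a)))
    (hg : Poly (fun x : {x : α × List Unit // 2 ^ (m (κ x.1)) ≤ x.2.length} => g x.1.1)) :
    ∃ (tm : FinTM2) (e₀ : tm.Γ tm.k₀ ≃ Bool) (e₁ : tm.Γ tm.k₁ ≃ Bool) (f : ℕ → ℕ) (d : ℕ),
      Computable f ∧ ∀ a, Nonempty (TM2OutputsInTime tm ((bits a).map e₀.invFun)
        (some ((bits (g a)).map e₁.invFun)) (f (κ a) * ((bits a).length + 1) ^ d)) := by
  obtain ⟨c, P, hc⟩ := fpt_run g κ m hm hg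
  obtain ⟨C, D, hP⟩ := eval_le_pow P
  obtain ⟨tm, e₀, e₁, htm⟩ := runs_to_tm g c _ hc
  refine ⟨tm, e₀, e₁, fun k => (C + 1) * 2 ^ ((2 * m k + 4) * D), D, ?_, fun a => ?_⟩
  · apply Primrec.to_comp
    have hpow : Primrec₂ (fun a b : ℕ => a ^ b) := Primrec₂.unpaired'.1 Nat.Primrec.pow
    exact Primrec.nat_mul.comp (Primrec.const (C + 1)) (hpow.comp (Primrec.const 2)
      (Primrec.nat_mul.comp (Primrec.nat_add.comp (Primrec.nat_mul.comp (Primrec.const 2) hmc)
        (Primrec.const 4)) (Primrec.const D)))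
  · obtain ⟨h⟩ := htm a
    refine ⟨outputs_conv rfl rfl ?_ h⟩
    set E := 2 ^ (2 * m (κ a) + 4) with hE
    have hE1 : 1 ≤ E := Nat.one_le_two_pow
    have h1 : (bits a).length + E ≤ E * ((bits a).length + 1) := by
      nlinarith [Nat.mul_le_mul_left (bits a).length hE1]
    have h2 := hP ((bits a).length + E) (by omega)
    have h3 : ((bits a).length + E) ^ D ≤ (E * ((bits a).length + 1)) ^ D :=
      Nat.pow_le_pow_left h1 D
    have h4 : 1 ≤ ((bits a).length + E) ^ D := Nat.one_le_pow _ _ (by omega)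
    calc P.eval ((bits a).length + E) + 1
        ≤ C * ((bits a).length + E) ^ D + ((bits a).length + E) ^ D := Nat.add_le_add h2 h4
      _ = (C + 1) * ((bits a).length + E) ^ D := by ring
      _ ≤ (C + 1) * (E * ((bits a).length + 1)) ^ D := Nat.mul_le_mul_left _ h3
      _ = (C + 1) * 2 ^ ((2 * m (κ a) + 4) * D) * ((bits a).length + 1) ^ D := by
        rw [mul_pow, pow_mul, hE]; ring

end Pool.Agent.NPC
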